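import Pool.Agent.T9h7.RE.Spec4

/-!
# Project RE, piece (PATHG): shortest sequence of generalised steps
-/

set_option autoImplicit false

namespace Pool.Agent.T9h22.RE

open Pool.Agent.T9h7.RD Pool.Agent.T9h7.RE

variable {n : ℕ}

/-- configurations -/
abbrev Cf (n : ℕ) := Finset (Finset (Fin n × Bool))

/-- good configurations -/
def Gd (s w : ℕ) (A : Cf n) : Prop := ∑ C ∈ A, C.card ≤ s ∧ One w A

/-- reachable in `T` steps -/
def PP (F : Cf n) (s w T : ℕ) (X : Cf n) : Prop :=
  ∃ G : ℕ → Cf n, G 0 = ∅ ∧ G T = X ∧ (∀ t < T, GStp F (G t) (G (t + 1))) ∧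
    ∀ t ≤ T, Gd s w (G t)

theorem One_empty (w : ℕ) : One w (∅ : Cf n) := by
  intro C hC
  exact absurd hC (Finset.notMem_empty C)

theorem One_mono {w : ℕ} {A B : Cf n} (h : A ⊆ B) (hB : One w B) : One w A :=
  fun C hC C' hC' h1 h2 => hB C (h hC) C' (h hC') h1 h2

theorem PP_zero (F : Cf n) (s w : ℕ) : PP F s w 0 ∅ :=
  ⟨fun _ => ∅, rfl, rfl, fun t ht => absurd ht (Nat.not_lt_zero t),
    fun t _ => ⟨by simp, One_empty w⟩⟩

theorem PP_succ {F : Cf n} {s w T : ℕ} {X Y : Cf n} (h : PP F s w T X) (hs : GStp F X Y)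
    (hY : Gd s w Y) : PP F s w (T + 1) Y := by
  obtain ⟨G, h0, hT, hst, hg⟩ := h
  refine ⟨fun t => if t ≤ T then G t else Y, by simp [h0], by simp, ?_, ?_⟩
  · intro t ht
    by_cases h1 : t + 1 ≤ T
    · simp only [if_pos h1, if_pos (show t ≤ T by omega)]
      exact hst t (by omega)
    · have h2 : t = T := by omega
      subst h2
      simp only [le_refl, if_true, if_neg h1, hT]
      exact hs
  · intro t ht
    by_cases h1 : t ≤ T
    · simp only [if_pos h1]
      exact hg t h1
    · simp only [if_neg h1]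
      exact hY

theorem sPathG : SPathG := by
  intro n F s w τ M hM hsz hone
  obtain ⟨hM0, hMτ, hM⟩ := hM
  have hstep : ∀ t < τ, (∃ C, M (t + 1) = insert C (M t) ∧
      ∀ B, B ⊆ insert C (M t) → GStp F (M t) B) ∨ M (t + 1) ⊆ M t := by
    intro t ht
    rcases hM t ht with ⟨C, hC, h1⟩ | ⟨P, hP, Q, hQ, v, h1, h2, h3⟩ | h1
    · exact Or.inl ⟨C, h1, fun B hB => Or.inr (Or.inl ⟨C, hC, hB⟩)⟩
    · exact Or.inl ⟨_, h3, fun B hB => Or.inr (Or.inr ⟨P, hP, Q, hQ, v, h1, h2, hB⟩)⟩
    · exact Or.inr h1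
  have hreach : ∀ t, t ≤ τ → One w (M t) → ∃ T, PP F s w T (M t) := by
    intro t
    induction t using Nat.strong_induction_on with
    | _ t ih =>
      intro ht hO
      rcases Nat.eq_zero_or_pos t with rfl | hpos
      · rw [hM0]
        exact ⟨0, PP_zero F s w⟩
      · obtain ⟨u, rfl⟩ : ∃ u, t = u + 1 := ⟨t - 1, by omega⟩
        by_cases hu : One w (M u)
        · obtain ⟨T, hT⟩ := ih u (by omega) (by omega) hu
          refine ⟨T + 1, PP_succ hT ?_ ⟨hsz _ ht, hO⟩⟩
          rcases hstep u (by omega) with ⟨C, h1, h2⟩ | h1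
          · exact h2 _ (by rw [h1])
          · exact Or.inl h1
        · have hsub : M (u + 1) ⊆ M u := by
            rcases hstep u (by omega) with ⟨C, h1, h2⟩ | h1
            · exact absurd (One_mono (by rw [h1]; exact Finset.subset_insert _ _) hO) hu
            · exact h1
          rcases Nat.eq_zero_or_pos u with rfl | hupos
          · exact absurd (by rw [hM0]; exact One_empty w) hu
          · obtain ⟨v, rfl⟩ : ∃ v, u = v + 1 := ⟨u - 1, by omega⟩
            have hv : One w (M v) := (hone v (by omega)).resolve_right hu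
            obtain ⟨T, hT⟩ := ih v (by omega) (by omega) hv
            refine ⟨T + 1, PP_succ hT ?_ ⟨hsz _ ht, hO⟩⟩
            rcases hstep v (by omega) with ⟨C, h1, h2⟩ | h1
            · exact h2 _ (by rw [← h1]; exact hsub)
            · exact absurd (One_mono h1 hv) hu
  have hemp : Gd s w ({∅} : Cf n) := ⟨by simp, by
    intro C hC C' hC' _ _
    rw [Finset.mem_singleton] at hC hC'
    rw [hC, hC']⟩
  have hfin : ∃ T, PP F s w T {∅} := by
    by_cases hO : One w (M τ)
    · obtain ⟨T, hT⟩ := hreach τ le_rfl hO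
      exact ⟨T + 1, PP_succ hT (Or.inl (Finset.singleton_subset_iff.mpr hMτ)) hemp⟩
    · rcases Nat.eq_zero_or_pos τ with rfl | hpos
      · rw [hM0] at hMτ
        exact absurd hMτ (Finset.notMem_empty _)
      · obtain ⟨u, rfl⟩ : ∃ u, τ = u + 1 := ⟨τ - 1, by omega⟩
        have hu : One w (M u) := (hone u (by omega)).resolve_right hO
        obtain ⟨T, hT⟩ := hreach u (by omega) hu
        rcases hstep u (by omega) with ⟨C, h1, h2⟩ | h1
        · exact ⟨T + 1, PP_succ hT
            (h2 _ (by rw [← h1]; exact Finset.singleton_subset_iff.mpr hMτ)) hemp⟩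
        · exact absurd (One_mono h1 hu) hO
  classical
  obtain ⟨T, hT, hmin⟩ : ∃ T, PP F s w T {∅} ∧ ∀ m < T, ¬ PP F s w m {∅} :=
    ⟨Nat.find hfin, Nat.find_spec hfin, fun m hm => Nat.find_min hfin hm⟩
  obtain ⟨G, h0, hGT, hst, hg⟩ := hT
  have hpre : ∀ t ≤ T, PP F s w t (G t) := fun t ht =>
    ⟨G, h0, rfl, fun i hi => hst i (by omega), fun i hi => hg i (by omega)⟩
  have hext : ∀ m k j, j + m ≤ T → PP F s w k (G j) → PP F s w (k + m) (G (j + m)) := by
    intro m
    induction m with
    | zero =>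
      intro k j _ h
      exact h
    | succ m ih =>
      intro k j hj h
      exact PP_succ (ih k j (by omega) h) (hst (j + m) (by omega)) (hg _ (by omega))
  refine ⟨T, G, h0, hGT, hst, fun t ht => (hg t ht).1, fun t ht => (hg t ht).2, ?_, ?_⟩
  · have key : ∀ i j, i < j → j < T → G i ≠ G j := by
      intro i j hij hj heq
      have h1 := hpre i (by omega)
      rw [heq] at h1
      have h2 := hext (T - j) i j (by omega) h1
      rw [show j + (T - j) = T by omega, hGT] at h2
      exact hmin _ (by omega) h2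
    intro i hi j hj h
    rcases lt_trichotomy i j with h1 | h1 | h1
    · exact absurd h (key i j h1 hj)
    · exact h1
    · exact absurd h.symm (key j i h1 hi)
  · intro t ht hmem
    have hex : ∃ u, (∅ : Finset (Fin n × Bool)) ∈ G u := ⟨t, hmem⟩
    obtain ⟨u, hu, humin⟩ : ∃ u, (∅ : Finset (Fin n × Bool)) ∈ G u ∧
        ∀ m < u, (∅ : Finset (Fin n × Bool)) ∉ G m :=
      ⟨Nat.find hex, Nat.find_spec hex, fun m hm => Nat.find_min hex hm⟩
    have hut : u ≤ t := by
      by_contra hcon
      exact humin t (by omega) hmem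
    rcases Nat.eq_zero_or_pos u with rfl | hupos
    · rw [h0] at hu
      exact absurd hu (Finset.notMem_empty _)
    · obtain ⟨v, rfl⟩ : ∃ v, u = v + 1 := ⟨u - 1, by omega⟩
      have hv := humin v (by omega)
      have h2 : GStp F (G v) {∅} := by
        rcases hst v (by omega) with h1 | ⟨C, hC, h1⟩ | ⟨P, hP, Q, hQ, x, h3, h4, h1⟩
        · exact absurd (h1 hu) hv
        · exact Or.inr (Or.inl ⟨C, hC, Finset.singleton_subset_iff.mpr (h1 hu)⟩)
        · exact Or.inr (Or.inr ⟨P, hP, Q, hQ, x, h3, h4,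
            Finset.singleton_subset_iff.mpr (h1 hu)⟩)
      exact hmin (v + 1) (by omega) (PP_succ (hpre v (by omega)) h2 hemp)

end Pool.Agent.T9h22.RE
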